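import Pool.Agent.K7.H50.OG.Basic

set_option autoImplicit false

/-! Project OG, job M1 -/

namespace Pool.Agent.K7.H34.OGM1

open Pool.Agent.K7.H50.OG

/-- the mirror image -/
def mir (k : ℕ) (E : Gr) : Gr := fun i j => E (k + 1 - j) (k + 1 - i)

theorem con_mir {k : ℕ} {E : Gr} (h : Con k E) : Con k (mir k E) := by
  intro S h1 h2
  obtain ⟨x, hx1, hx2, hx⟩ := h1
  obtain ⟨y, hy1, hy2, hy⟩ := h2
  obtain ⟨i, j, h3, h4, h5, h6, h7⟩ := h (fun z => S (k + 1 - z))
    ⟨k + 1 - x, by omega, by omega, by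
      show S (k + 1 - (k + 1 - x))
      rw [show k + 1 - (k + 1 - x) = x by omega]; exact hx⟩
    ⟨k + 1 - y, by omega, by omega, by
      show ¬ S (k + 1 - (k + 1 - y))
      rw [show k + 1 - (k + 1 - y) = y by omega]; exact hy⟩
  refine ⟨k + 1 - j, k + 1 - i, by omega, by omega, by omega, ?_, ?_⟩
  · show E (k + 1 - (k + 1 - i)) (k + 1 - (k + 1 - j))
    rw [show k + 1 - (k + 1 - i) = i by omega, show k + 1 - (k + 1 - j) = j by omega]
    exact h6
  · tauto

theorem lf2_mir {k : ℕ} {E : Gr} {a b : ℕ} (h : Lf2 k E a b) :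
    Lf2 k (mir k E) (k + 1 - b) (k + 1 - a) := by
  have ha := h.ha
  have hab := h.hab
  have hb := h.hb
  refine ⟨⟨con_mir h.con, by omega, by omega, by omega, ?_, ?_, ?_, ?_⟩, ?_⟩
  · show E (k + 1 - (k + 1 - a)) (k + 1 - 1)
    rw [show k + 1 - (k + 1 - a) = a by omega, show k + 1 - 1 = k by omega]
    exact h.ek
  · show E (k + 1 - k) (k + 1 - (k + 1 - b))
    rw [show k + 1 - (k + 1 - b) = b by omega, show k + 1 - k = 1 by omega]
    exact h.e1
  · intro i h1 h2 h3
    have h4 : E (k + 1 - k) (k + 1 - i) := h3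
    rw [show k + 1 - k = 1 by omega] at h4
    have := h.v1 _ (by omega) (by omega) h4
    omega
  · intro j h1 h2 h3
    have h4 : E (k + 1 - j) (k + 1 - 1) := h3
    rw [show k + 1 - 1 = k by omega] at h4
    have := h.uk _ (by omega) (by omega) h4
    omega
  · intro j h1 h2 h3
    have h4 : E (k + 1 - j) (k + 1 - 1) := h3
    rw [show k + 1 - 1 = k by omega] at h4
    have := h.uk _ (by omega) (by omega) h4
    omega

theorem pend_mir {k : ℕ} {E : Gr} {lo hi u v r : ℕ} (h : Pend (mir k E) lo hi u v r)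
    (hlo : 1 ≤ lo) (hhi : hi ≤ k) (hu : 1 ≤ u) (huv : u ≤ v) (hv : v ≤ k) (hr : 1 ≤ r)
    (hrk : r ≤ k) : Pend E (k + 1 - hi) (k + 1 - lo) (k + 1 - v) (k + 1 - u) (k + 1 - r) := by
  intro i j h1 h2 h3 h4
  have h5 := h (k + 1 - j) (k + 1 - i) (by omega) (by omega) (by omega) (by
    show E (k + 1 - (k + 1 - i)) (k + 1 - (k + 1 - j))
    rw [show k + 1 - (k + 1 - i) = i by omega, show k + 1 - (k + 1 - j) = j by omega]
    exact h4)
  constructor
  · intro h6 h7
    have := h5.2 (by omega) (by omega)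
    omega
  · intro h6 h7
    have := h5.1 (by omega) (by omega)
    omega

theorem inter {k : ℕ} {E : Gr} (hcon : Con k E) {s t r s' t' r' x : ℕ}
    (h1 : Pend E 2 (k - 1) s t r) (h2 : Pend E 2 (k - 1) s' t' r')
    (hx : s ≤ x ∧ x ≤ t ∧ s' ≤ x ∧ x ≤ t') (hs : 2 ≤ s ∨ 2 ≤ s') (ht : t < k ∨ t' < k)
    (hne : r ≠ r') (hr : ¬ (s' ≤ r ∧ r ≤ t')) (hr' : ¬ (s ≤ r' ∧ r' ≤ t))
    (ho : ∀ y, s ≤ y ∧ y ≤ t ∧ s' ≤ y ∧ y ≤ t' → ¬ E 1 y)
    (hk : ∀ y, s ≤ y ∧ y ≤ t ∧ s' ≤ y ∧ y ≤ t' → ¬ E y k) : False := by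
  obtain ⟨i, j, h3, h4, h5, h6, h7⟩ := hcon (fun y => s ≤ y ∧ y ≤ t ∧ s' ≤ y ∧ y ≤ t')
    ⟨x, by omega, by omega, hx⟩ ⟨1, by omega, by omega, by
      show ¬ (s ≤ 1 ∧ 1 ≤ t ∧ s' ≤ 1 ∧ 1 ≤ t')
      omega⟩
  have h8 : (s ≤ i ∧ i ≤ t ∧ s' ≤ i ∧ i ≤ t') ↔ ¬ (s ≤ j ∧ j ≤ t ∧ s' ≤ j ∧ j ≤ t') := h7
  by_cases hi : s ≤ i ∧ i ≤ t ∧ s' ≤ i ∧ i ≤ t'
  · have hj := h8.1 hi
    have hjk : j ≠ k := fun e => hk i hi (e ▸ h6)
    have h9 := h1 i j (by omega) h4 (by omega) h6
    have h10 := h2 i j (by omega) h4 (by omega) h6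
    by_cases ha : s ≤ j ∧ j ≤ t
    · by_cases hb : s' ≤ j ∧ j ≤ t'
      · exact hj ⟨ha.1, ha.2, hb.1, hb.2⟩
      · have := h10.1 (by omega) hb
        subst this
        exact hr' ha
    · have e1 := h9.1 (by omega) ha
      by_cases hb : s' ≤ j ∧ j ≤ t'
      · subst e1
        exact hr hb
      · have e2 := h10.1 (by omega) hb
        exact hne (e1 ▸ e2)
  · have hj : s ≤ j ∧ j ≤ t ∧ s' ≤ j ∧ j ≤ t' := by tauto
    have hi1 : i ≠ 1 := fun e => ho j hj (e ▸ h6)
    have h9 := h1 i j (by omega) h4 (by omega) h6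
    have h10 := h2 i j (by omega) h4 (by omega) h6
    by_cases ha : s ≤ i ∧ i ≤ t
    · by_cases hb : s' ≤ i ∧ i ≤ t'
      · exact hi ⟨ha.1, ha.2, hb.1, hb.2⟩
      · have := h10.2 (by omega) hb
        subst this
        exact hr' ha
    · have e1 := h9.2 (by omega) ha
      by_cases hb : s' ≤ i ∧ i ≤ t'
      · subst e1
        exact hr hb
      · have e2 := h10.2 (by omega) hb
        exact hne (e1 ▸ e2)

theorem pend_sub {k : ℕ} {E : Gr} {u v r : ℕ} (h : Pend E 1 k u v r) : Pend E 2 (k - 1) u v r :=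
  fun i j h1 h2 h3 h4 => h i j (by omega) h2 (by omega) h4

/-- JOB M1 -/
theorem stM1 (hMir : StMir) (hVA : StVA) (hVB : StVB) (hVC : StVC) : StM1 := by
  intro k E a b h hab2
  by_contra hD
  have ha := h.ha
  have hab := h.hab
  have hb := h.hb
  have hm := lf2_mir h
  have hD' : ¬ Dead k (mir k E) := fun e => hD (hMir k E e)
  obtain ⟨u, hu1, hua, hV⟩ := (hVA k E a b h hab2).resolve_left hD
  obtain ⟨j, r, hj1, hjr, hbr, hrk, hI⟩ := (hVB k E a b h hab2).resolve_left hD
  have hone : ∀ y, 1 < y → y ≤ k → y ≠ b → ¬ E 1 y := fun y h1 h2 h3 h4 => h3 (h.v1 y h1 h2 h4)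
  have hkk : ∀ y, 1 ≤ y → y < k → y ≠ a → ¬ E y k := fun y h1 h2 h3 h4 => h3 (h.uk y h1 h2 h4)
  rcases (hVC k (mir k E) (k + 1 - b) (k + 1 - a) hm (by omega)).resolve_left hD' with
    ⟨w, hw1, hw2, hP⟩ | ⟨w, q, hw1, hw2, hq1, hq2, hP, hN⟩
  · have hP' := pend_sub (pend_mir hP le_rfl le_rfl (by omega) (by omega) (by omega) (by omega)
      (by omega) |> fun e => by
        rwa [show k + 1 - k = 1 by omega, show k + 1 - 1 = k by omega] at e)
    refine inter h.con hI hP' (x := a + 1) (by omega) (by omega) (by omega) (by omega) (by omega)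
      (by omega) (fun y hy => hone y (by omega) (by omega) (by omega))
      (fun y hy => hkk y (by omega) (by omega) (by omega))
  · have hP' : Pend E 2 (k - 1) (k + 1 - (q - 1)) (k + 1 - w) (k + 1 - q) := by
      have := pend_mir hP (by omega) (by omega) (by omega) (by omega) (by omega) (by omega)
        (by omega)
      rwa [show k + 1 - (k - 1) = 2 by omega, show k + 1 - 2 = k - 1 by omega] at this
    -- the interval is `[R+1..a]`
    have hw : w = k + 1 - a := by
      by_contra hw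
      refine inter h.con hI hP' (x := a + 1) (by omega) (by omega) (by omega) (by omega) (by omega)
        (by omega) (fun y hy => hone y (by omega) (by omega) (by omega))
        (fun y hy => hkk y (by omega) (by omega) (by omega))
    obtain ⟨R, hR⟩ : ∃ R, R = k + 1 - q := ⟨_, rfl⟩
    have hRa : R < a := by omega
    have hR1 : 1 < R := by omega
    rw [← hR, show k + 1 - (q - 1) = R + 1 by omega, show k + 1 - w = a by omega] at hP'
    have hNa : ¬ E R a := by
      have := hN w le_rfl hw2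
      intro hE
      apply this
      show E (k + 1 - q) (k + 1 - w)
      rw [← hR, show k + 1 - w = a by omega]
      exact hE
    have huR : u ≤ R := by
      by_contra huR
      refine inter h.con (pend_sub hV) hP' (x := u) (by omega) (by omega) (by omega) (by omega)
        (by omega) (by omega) (fun y hy => hone y (by omega) (by omega) (by omega))
        (fun y hy => hkk y (by omega) (by omega) (by omega))
    obtain ⟨i', j', h3, h4, h5, h6, h7⟩ := h.con (fun y => y = a ∨ y = k)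
      ⟨a, by omega, by omega, Or.inl rfl⟩ ⟨1, by omega, by omega, by
        show ¬ (1 = a ∨ 1 = k)
        omega⟩
    have h8 : (i' = a ∨ i' = k) ↔ ¬ (j' = a ∨ j' = k) := h7
    by_cases hjk : j' = k
    · subst hjk
      have := h.uk i' h3 h4 h6
      omega
    · by_cases hi : i' = a
      · subst hi
        have h9 := (hP' i' j' (by omega) h4 (by omega) h6).1 (by omega) (by omega)
        omega
      · have hj' : j' = a := by
          by_contra hj'
          omega
        subst hj'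
        by_cases hi1 : i' = 1
        · subst hi1
          exact hone j' (by omega) (by omega) (by omega) h6
        · by_cases hiR : R + 1 ≤ i'
          · have := (hV i' j' (by omega) h4 (by omega) h6).1 (by omega) (by omega)
            omega
          · have := (hP' i' j' (by omega) h4 (by omega) h6).2 (by omega) (by omega)
            subst this
            exact hNa h6

end Pool.Agent.K7.H34.OGM1
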