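import Pool.Agent.K7.H42.TL.Stm

set_option autoImplicit false

open Finset

namespace Pool.Agent.K7.H34.TLTAIL

open Pool.Agent.K7.H42.TL

lemma sum_le (D N : ℕ) (hD : 1 ≤ D) :
    ∑ n ∈ range N, (if D < n then ((n : ℝ) ^ 2)⁻¹ else 0) ≤ (D : ℝ)⁻¹ := by
  rw [← sum_filter]
  have h1 : (range N).filter (fun n => D < n) ⊆ Ioc D (max D N) := by
    intro n hn
    rw [mem_filter, mem_range] at hn
    rw [mem_Ioc]
    exact ⟨hn.2, hn.1.le.trans (le_max_right _ _)⟩
  refine (sum_le_sum_of_subset_of_nonneg h1 fun i _ _ => by positivity).trans ?_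
  refine (sum_Ioc_inv_sq_le_sub (by omega) (le_max_left _ _)).trans ?_
  have : (0 : ℝ) ≤ ((max D N : ℕ) : ℝ)⁻¹ := by positivity
  linarith

theorem t (hC : StCoeff) : StTail := by
  intro p hp
  have hp0 : 0 < p := by linarith
  have hb : ∀ k : ℤ, k ≠ 0 → ‖fourierCoeff (fp p hp) k‖ ≤ p / 2 * ((k : ℝ) ^ 2)⁻¹ := by
    intro k hk
    refine (hC p hp k hk).trans (le_of_eq ?_)
    rw [div_eq_mul_inv, mul_inv, div_eq_mul_inv]
    ring
  have hs : Summable (fun k : ℤ => ‖fourierCoeff (fp p hp) k‖) := by
    have h1 : Summable (fun k : ℤ => 1 / (k : ℝ) ^ 2) :=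
      Real.summable_one_div_int_pow.2 (by norm_num)
    have h2 : Summable (fun k : ℤ => p / 2 * (1 / (k : ℝ) ^ 2) +
        (if k = 0 then ‖fourierCoeff (fp p hp) 0‖ else 0)) :=
      (h1.mul_left _).add (hasSum_ite_eq (0 : ℤ) _).summable
    refine Summable.of_nonneg_of_le (fun k => norm_nonneg _) (fun k => ?_) h2
    by_cases hk : k = 0
    · subst hk
      simp
    · have := hb k hk
      rw [if_neg hk, add_zero, one_div]
      exact this
  refine ⟨hs, ?_, ?_⟩
  · intro D hD
    set F : ℤ → ℝ := fun k => if (D : ℤ) < |k| then ‖fourierCoeff (fp p hp) k‖ else 0 with hF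
    have hF0 : ∀ k, 0 ≤ F k := fun k => by
      simp only [hF]; split_ifs <;> simp
    have hFs : Summable F := by
      refine Summable.of_nonneg_of_le hF0 (fun k => ?_) hs
      simp only [hF]; split_ifs <;> simp
    have hi1 : Function.Injective (fun n : ℕ => (n : ℤ)) := Nat.cast_injective
    have hi2 : Function.Injective (fun n : ℕ => -((n : ℤ) + 1)) := by
      intro a b h
      simp only at h
      omega
    have e1 : Summable fun n : ℕ => F n := hFs.comp_injective hi1
    have e2 : Summable fun n : ℕ => F (-((n : ℤ) + 1)) := hFs.comp_injective hi2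
    rw [tsum_of_nat_of_neg_add_one e1 e2]
    have b1 : ∑' n : ℕ, F n ≤ p / 2 * (D : ℝ)⁻¹ := by
      refine Real.tsum_le_of_sum_range_le (fun n => hF0 _) fun N => ?_
      calc ∑ n ∈ range N, F n ≤ ∑ n ∈ range N, p / 2 * (if D < n then ((n : ℝ) ^ 2)⁻¹ else 0) := by
            refine sum_le_sum fun n _ => ?_
            simp only [hF]
            by_cases h : D < n
            · have h' : (D : ℤ) < |(n : ℤ)| := by
                rw [abs_of_nonneg (by positivity)]; exact_mod_cast h
              rw [if_pos h', if_pos h]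
              have := hb (n : ℤ) (by omega)
              simpa using this
            · have h' : ¬ (D : ℤ) < |(n : ℤ)| := by
                rw [abs_of_nonneg (by positivity)]; exact_mod_cast h
              rw [if_neg h', if_neg h, mul_zero]
        _ = p / 2 * ∑ n ∈ range N, (if D < n then ((n : ℝ) ^ 2)⁻¹ else 0) := by rw [mul_sum]
        _ ≤ _ := mul_le_mul_of_nonneg_left (sum_le D N hD) (by positivity)
    have b2 : ∑' n : ℕ, F (-((n : ℤ) + 1)) ≤ p / 2 * (D : ℝ)⁻¹ := by
      refine Real.tsum_le_of_sum_range_le (fun n => hF0 _) fun N => ?_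
      calc ∑ n ∈ range N, F (-((n : ℤ) + 1))
          ≤ ∑ n ∈ range N, p / 2 * (if D < n + 1 then (((n + 1 : ℕ) : ℝ) ^ 2)⁻¹ else 0) := by
            refine sum_le_sum fun n _ => ?_
            simp only [hF]
            have ha : |(-((n : ℤ) + 1))| = ((n + 1 : ℕ) : ℤ) := by
              rw [abs_neg, abs_of_nonneg (by positivity)]; push_cast; ring
            by_cases h : D < n + 1
            · have h' : (D : ℤ) < |(-((n : ℤ) + 1))| := by
                rw [ha]; exact_mod_cast h
              rw [if_pos h', if_pos h]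
              have := hb (-((n : ℤ) + 1)) (by omega)
              have e : ((-((n : ℤ) + 1) : ℤ) : ℝ) ^ 2 = (((n + 1 : ℕ) : ℝ)) ^ 2 := by
                push_cast; ring
              rwa [e] at this
            · have h' : ¬ (D : ℤ) < |(-((n : ℤ) + 1))| := by
                rw [ha]; exact_mod_cast h
              rw [if_neg h', if_neg h, mul_zero]
        _ = p / 2 * ∑ n ∈ range N, (if D < n + 1 then (((n + 1 : ℕ) : ℝ) ^ 2)⁻¹ else 0) := by
            rw [mul_sum]
        _ ≤ p / 2 * ∑ n ∈ range (N + 1), (if D < n then ((n : ℝ) ^ 2)⁻¹ else 0) := by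
            refine mul_le_mul_of_nonneg_left ?_ (by positivity)
            rw [sum_range_succ' (fun n : ℕ => if D < n then ((n : ℝ) ^ 2)⁻¹ else 0) N]
            simp
        _ ≤ _ := mul_le_mul_of_nonneg_left (sum_le D (N + 1) hD) (by positivity)
    calc _ ≤ p / 2 * (D : ℝ)⁻¹ + p / 2 * (D : ℝ)⁻¹ := add_le_add b1 b2
      _ = p / D := by rw [div_eq_mul_inv p (D : ℝ)]; ring
  · intro x
    have h1 : Summable (fourierCoeff (fp p hp)) := hs.of_norm
    have := has_pointwise_sum_fourier_series_of_summable h1 x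
    simpa [fp, smul_eq_mul] using this

end Pool.Agent.K7.H34.TLTAIL
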